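import Pool.Agent.Y377.ST.Def
import Pool.Agent.Q1.SL.DCurve

/-!
Polynomials in vectors given by iterated recurrences or iterated linear differential equations.
-/

set_option autoImplicit false

namespace Pool.Agent.Q1.FB

open MvPolynomial Pool.Agent.Y377.ST Pool.Agent.Q1.SL

variable {L ι : Type} [CommRing L] [Fintype ι] [DecidableEq ι]

theorem pev_poly {e : ℕ} (c : (ι → Fin (e + 1)) → L) :
    ∃ P : MvPolynomial ι L, (∀ i, P.degreeOf i ≤ e) ∧ ∀ w, pev c w = eval w P := by
  refine ⟨∑ m : ι → Fin (e + 1), C (c m) * ∏ i, X i ^ (m i : ℕ), fun i => ?_, fun w => ?_⟩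
  · refine (degreeOf_sum_le i _ _).trans (Finset.sup_le fun m _ => ?_)
    refine (degreeOf_C_mul_le _ _ _).trans ?_
    refine (degreeOf_prod_le i _ _).trans ?_
    rw [Finset.sum_eq_single i]
    · by_cases hL : Nontrivial L
      · refine (degreeOf_pow_le i _ _).trans ?_
        rw [degreeOf_X, if_pos rfl, mul_one]
        omega
      · rw [not_nontrivial_iff_subsingleton] at hL
        have h0 : (X i ^ (m i : ℕ) : MvPolynomial ι L) = 0 := Subsingleton.elim _ _
        rw [h0, degreeOf_zero]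
        exact Nat.zero_le _
    · intro j _ hj
      refine Nat.le_zero.1 ((degreeOf_pow_le i _ _).trans ?_)
      by_cases hL : Nontrivial L
      · rw [degreeOf_X, if_neg (fun h => hj h.symm), mul_zero]
      · rw [not_nontrivial_iff_subsingleton] at hL
        have h0 : (X j : MvPolynomial ι L) = 0 := Subsingleton.elim _ _
        rw [h0, degreeOf_zero, mul_zero]
    · intro h
      exact absurd (Finset.mem_univ i) h
  · unfold pev
    rw [map_sum]
    refine Finset.sum_congr rfl fun m _ => ?_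
    rw [map_mul, eval_C, map_prod]
    congr 1
    refine Finset.prod_congr rfl fun i _ => ?_
    rw [map_pow, eval_X]

theorem poly_pev {e : ℕ} (P : MvPolynomial ι L) (hP : ∀ i, P.degreeOf i ≤ e) :
    ∃ c : (ι → Fin (e + 1)) → L, ∀ w, eval w P = pev c w := by
  classical
  let f : (ι → Fin (e + 1)) → (ι →₀ ℕ) := fun m => Finsupp.equivFunOnFinite.symm fun i => (m i : ℕ)
  have hf : Function.Injective f := by
    intro m m' h
    funext i
    have h1 := congrFun (congrArg Finsupp.equivFunOnFinite h) i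
    simp only [f, Equiv.apply_symm_apply] at h1
    exact Fin.ext h1
  refine ⟨fun m => P.coeff (f m), fun w => ?_⟩
  unfold pev
  rw [eval_eq']
  have hsub : P.support ⊆ Finset.univ.map ⟨f, hf⟩ := by
    intro d hd
    rw [Finset.mem_map]
    refine ⟨fun i => ⟨d i, ?_⟩, Finset.mem_univ _, ?_⟩
    · have h1 : d i ≤ P.degreeOf i := by
        rw [degreeOf_eq_sup]
        exact Finset.le_sup (f := fun m => m i) hd
      have := hP i
      omega
    · ext i
      rfl
  rw [Finset.sum_subset hsub (fun d _ hd => by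
    rw [notMem_support_iff.1 hd, zero_mul]), Finset.sum_map]
  rfl

theorem pev_mono {e e' : ℕ} (he : e ≤ e') (c : (ι → Fin (e + 1)) → L) :
    ∃ c' : (ι → Fin (e' + 1)) → L, ∀ w, pev c w = pev c' w := by
  obtain ⟨P, hP, h1⟩ := pev_poly c
  obtain ⟨c', h2⟩ := poly_pev P fun i => (hP i).trans he
  exact ⟨c', fun w => (h1 w).trans (h2 w)⟩

/-- composition -/
theorem pev_comp {N : ℕ} {e δ : ℕ} (c : Fin N → (ι → Fin (e + 1)) → L)
    (Q : MvPolynomial (Fin N) L) (hQ : Q.totalDegree ≤ δ) :
    ∃ c' : (ι → Fin (e * δ + 1)) → L, ∀ w, eval (fun j => pev (c j) w) Q = pev c' w := by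
  classical
  choose P hP h1 using fun j => pev_poly (c j)
  have hdeg : ∀ i, (aeval P Q).degreeOf i ≤ e * δ := by
    intro i
    rw [aeval_def, eval₂_eq']
    refine (degreeOf_sum_le i _ _).trans (Finset.sup_le fun d hd => ?_)
    rw [MvPolynomial.algebraMap_eq]
    refine (degreeOf_C_mul_le _ _ _).trans ?_
    refine (degreeOf_prod_le i _ _).trans ?_
    have h2 : ∀ j, (P j ^ d j).degreeOf i ≤ d j * e := fun j =>
      (degreeOf_pow_le i _ _).trans (Nat.mul_le_mul_left _ (hP j i))
    refine (Finset.sum_le_sum fun j _ => h2 j).trans ?_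
    rw [← Finset.sum_mul, mul_comm e δ]
    refine Nat.mul_le_mul_right _ (le_trans ?_ hQ)
    have h3 := le_totalDegree hd
    rw [Finsupp.sum_fintype _ _ (fun _ => rfl)] at h3
    exact h3
  obtain ⟨c', h3⟩ := poly_pev (aeval P Q) hdeg
  refine ⟨c', fun w => ?_⟩
  rw [← h3, aeval_def, MvPolynomial.algebraMap_eq, eval₂_comp_left (eval w)]
  have h4 : (eval w).comp (C : L →+* MvPolynomial ι L) = RingHom.id L := by
    ext a
    simp
  have h5 : (eval w : MvPolynomial ι L → L) ∘ P = fun j => pev (c j) w := by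
    funext j
    exact (h1 j w).symm
  rw [h4, h5]
  rfl

/-- polynomials in iterated recurrences -/
theorem iterVec_comp {L H : Type} [CommRing L] [Group H] {s r e N M δ : ℕ} {x : H → Fin N → L}
    (hx : IterVec s r e x) (hδ : 0 < δ) (g : Fin M → MvPolynomial (Fin N) L)
    (hg : ∀ j, (g j).totalDegree ≤ δ) :
    IterVec s r (e * δ) fun h j => eval (x h) (g j) := by
  obtain ⟨X, Y, hX, hc⟩ := hx
  choose c hc using hc
  have hle : e ≤ e * δ := Nat.le_mul_of_pos_right e hδ
  refine ⟨X, Y, ⟨hX.inv, fun l g' i j => ?_⟩, fun j => ?_⟩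
  · obtain ⟨c1, h1⟩ := hX.coc l g' i j
    obtain ⟨c2, h2⟩ := pev_mono hle c1
    exact ⟨c2, fun h => (h1 h).trans (h2 _)⟩
  · obtain ⟨c', h1⟩ := pev_comp c (g j) (hg j)
    exact ⟨c', fun h => (congrArg (fun w => eval w (g j)) (funext fun i => hc i h)).trans (h1 _)⟩

/-- polynomials in solutions of iterated linear differential equations -/
theorem dVec_comp {Ω : Set ℂ} {s r e N M δ : ℕ} {f : ℂ → Fin N → ℂ}
    (hf : DVec Ω s r e f) (hδ : 0 < δ) (g : Fin M → MvPolynomial (Fin N) ℂ)
    (hg : ∀ j, (g j).totalDegree ≤ δ) :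
    DVec Ω s r (e * δ) fun z j => eval (f z) (g j) := by
  obtain ⟨X, Y, hX, hc⟩ := hf
  choose c hc using hc
  have hle : e ≤ e * δ := Nat.le_mul_of_pos_right e hδ
  refine ⟨X, Y, ⟨hX.an, hX.an', hX.inv, fun l i j => ?_⟩, fun j => ?_⟩
  · obtain ⟨c1, h1⟩ := hX.coc l i j
    obtain ⟨c2, h2⟩ := pev_mono hle c1
    exact ⟨c2, fun z hz => (h1 z hz).trans (h2 _)⟩
  · obtain ⟨c', h1⟩ := pev_comp c (g j) (hg j)
    exact ⟨c', fun z hz =>
      (congrArg (fun w => eval w (g j)) (funext fun i => hc i z hz)).trans (h1 _)⟩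

end Pool.Agent.Q1.FB
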