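import Pool.Agent.Q1.FB.Comp
import Pool.Agent.Q1.SL.Uni

/-!
Images of families of points under rational maps.
-/

set_option autoImplicit false

namespace Pool.Agent.Q1.FB

open MvPolynomial Pool.Agent.Y377.ST Pool.Agent.Q1.SL Pool.Agent.H533R3.SL

variable {k : Type} [Field k] {n m : ℕ}

/-- The ideal of the closure of the image of the variety with the ideal `I` under the rational map
with the homogeneous coordinates `g_0, ..., g_m`. -/
noncomputable def imgI (I : Ideal (MvPolynomial (Fin (n + 1)) k))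
    (g : Fin (m + 1) → MvPolynomial (Fin (n + 1)) k) : Ideal (MvPolynomial (Fin (m + 1)) k) :=
  I.comap (aeval g : MvPolynomial (Fin (m + 1)) k →ₐ[k] MvPolynomial (Fin (n + 1)) k)

theorem mem_imgI {I : Ideal (MvPolynomial (Fin (n + 1)) k)}
    {g : Fin (m + 1) → MvPolynomial (Fin (n + 1)) k} {Q : MvPolynomial (Fin (m + 1)) k} :
    Q ∈ imgI I g ↔ aeval g Q ∈ I := Iff.rfl

theorem aeval_hom {g : Fin (m + 1) → MvPolynomial (Fin (n + 1)) k} {δ : ℕ}
    (hg : ∀ j, (g j).IsHomogeneous δ) {Q : MvPolynomial (Fin (m + 1)) k} {i : ℕ}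
    (hQ : Q.IsHomogeneous i) : (aeval g Q).IsHomogeneous (i * δ) := by
  rw [aeval_def, eval₂_eq']
  refine IsHomogeneous.sum _ _ _ fun d hd => ?_
  rw [MvPolynomial.algebraMap_eq, ← zero_add (i * δ)]
  refine (isHomogeneous_C _ _).mul ?_
  have h1 : i * δ = ∑ j, d j * δ := by
    rw [← Finset.sum_mul]
    congr 1
    have h2 := hQ (mem_support_iff.1 hd)
    rw [← h2, Finsupp.weight_apply, Finsupp.sum_fintype _ _ (fun _ => by simp)]
    exact Finset.sum_congr rfl fun j _ => by simp
  rw [h1]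
  refine IsHomogeneous.prod _ _ _ fun j _ => ?_
  have h3 := (hg j).pow (d j)
  rwa [mul_comm] at h3

attribute [local instance] MvPolynomial.gradedAlgebra in
theorem span_img {I : Ideal (MvPolynomial (Fin (n + 1)) k)}
    (hI : ∃ S : Set (MvPolynomial (Fin (n + 1)) k), (∀ F ∈ S, ∃ e, F.IsHomogeneous e) ∧
      I = Ideal.span S) {g : Fin (m + 1) → MvPolynomial (Fin (n + 1)) k} {δ : ℕ} (hδ : 0 < δ)
    (hg : ∀ j, (g j).IsHomogeneous δ) :
    Ideal.span {Q : MvPolynomial (Fin (m + 1)) k | (∃ e, Q.IsHomogeneous e) ∧ Q ∈ imgI I g} =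
      imgI I g := by
  obtain ⟨S, hS, rfl⟩ := hI
  have hh : (Ideal.span S).IsHomogeneous (homogeneousSubmodule (Fin (n + 1)) k) := by
    apply Ideal.homogeneous_span
    intro F hF
    obtain ⟨e, he⟩ := hS F hF
    exact ⟨e, he⟩
  apply le_antisymm
  · rw [Ideal.span_le]
    intro F hF
    exact hF.2
  · intro Q hQ
    rw [← sum_homogeneousComponent Q]
    refine Ideal.sum_mem _ fun i hi =>
      Ideal.subset_span ⟨⟨i, homogeneousComponent_isHomogeneous i Q⟩, ?_⟩
    have h1 := homogeneousComponent_mem_of_mem hh hQ (i * δ)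
    have h2 : homogeneousComponent (i * δ) (aeval g Q) = aeval g (homogeneousComponent i Q) := by
      conv_lhs => rw [← sum_homogeneousComponent Q]
      rw [map_sum, map_sum, Finset.sum_eq_single i]
      · exact (homogeneousComponent_of_mem (aeval_hom hg
          (homogeneousComponent_isHomogeneous i Q))).trans (if_pos rfl)
      · intro j _ hji
        refine (homogeneousComponent_of_mem (aeval_hom hg
          (homogeneousComponent_isHomogeneous j Q))).trans (if_neg ?_)
        intro h3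
        exact hji (Nat.eq_of_mul_eq_mul_right hδ h3).symm
      · intro h3
        exact absurd hi h3
    change homogeneousComponent (i * δ) (aeval g Q) ∈ Ideal.span S at h1
    rw [h2] at h1
    exact h1

/-- The images, under the rational map with the homogeneous coordinates `g_0, ..., g_m`, of the
points with the homogeneous coordinates `x(h)` outside of `G = 0`. -/
def imgOff {L H : Type} [Field L] [Algebra k L] (g : Fin (m + 1) → MvPolynomial (Fin (n + 1)) k)
    (G : MvPolynomial (Fin (n + 1)) k) (x : H → Fin (n + 1) → L) :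
    Set (Projectivization L (Fin (m + 1) → L)) :=
  {P | ∃ (h : H) (h0 : (fun j => aeval (x h) (g j)) ≠ 0), aeval (x h) G ≠ 0 ∧
    P = Projectivization.mk L (fun j => aeval (x h) (g j)) h0}

theorem iterVec_aeval {L H : Type} [Field L] [Algebra k L] [Group H] {s r e δ : ℕ}
    {x : H → Fin (n + 1) → L} (hx : IterVec s r e x) (hδ : 0 < δ)
    {g : Fin (m + 1) → MvPolynomial (Fin (n + 1)) k} (hg : ∀ j, (g j).IsHomogeneous δ) :
    IterVec s r (e * δ) fun h j => aeval (x h) (g j) := by
  have h1 := iterVec_comp hx hδ (fun j => MvPolynomial.map (algebraMap k L) (g j))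
    fun j => ((hg j).map _).totalDegree_le
  have h2 : (fun h j => eval (x h) (MvPolynomial.map (algebraMap k L) (g j))) =
      fun h j => aeval (x h) (g j) := by
    funext h j
    rw [eval_map, aeval_def]
  rwa [h2] at h1

/-- **Images of families of points.** -/
theorem img_uniform [Countable k]
    (FF : Set (MvPolynomial (Fin (n + 1)) k)) (hhom : ∀ F ∈ FF, ∃ e, F.IsHomogeneous e)
    (hprime : (Ideal.span FF).IsPrime) (g : Fin (m + 1) → MvPolynomial (Fin (n + 1)) k) {δ : ℕ}
    (hδ : 0 < δ) (hg : ∀ j, (g j).IsHomogeneous δ)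
    (hnu : ¬ Uniruled (imgI (Ideal.span FF) g)) (s r e : ℕ) :
    ∃ G : MvPolynomial (Fin (n + 1)) k, (∃ d, G.IsHomogeneous d) ∧ G ∉ Ideal.span FF ∧
      ∃ B : ℕ, ∀ (L : Type) [Field L] [Algebra k L] (_ : L →+* ℂ) (H : Type) [Group H]
        (x : H → Fin (n + 1) → L), IterVec s r e x → (∀ h, ∀ F ∈ FF, aeval (x h) F = 0) →
        (imgOff g G x).encard ≤ (B : ℕ∞) := by
  have hsp := span_img (I := Ideal.span FF) ⟨FF, hhom, rfl⟩ hδ hg
  have hp : (Ideal.span {Q : MvPolynomial (Fin (m + 1)) k | (∃ e, Q.IsHomogeneous e) ∧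
      Q ∈ imgI (Ideal.span FF) g}).IsPrime := by
    rw [hsp]
    exact Ideal.IsPrime.comap _
  obtain ⟨G, ⟨d, hd⟩, hG2, B, hB⟩ := strong_uniform _ (fun Q hQ => hQ.1) hp
    (by rw [hsp]; exact hnu) s r (e * δ)
  rw [hsp] at hG2
  refine ⟨aeval g G, ⟨d * δ, aeval_hom hg hd⟩, hG2, B, ?_⟩
  intro L _ _ τ H _ x hx hX
  have hI : ∀ h, ∀ F ∈ Ideal.span FF, aeval (x h) F = 0 := by
    intro h
    have h1 : Ideal.span FF ≤ RingHom.ker (aeval (x h) : MvPolynomial (Fin (n + 1)) k →ₐ[k] L) := by
      rw [Ideal.span_le]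
      intro F hF
      exact hX h F hF
    intro F hF
    exact h1 hF
  have hc : ∀ h (Q : MvPolynomial (Fin (m + 1)) k),
      aeval (fun j => aeval (x h) (g j)) Q = aeval (x h) (aeval g Q) := by
    intro h Q
    exact (MvPolynomial.comp_aeval_apply (f := g) (aeval (x h)) Q).symm
  have h2 := hB L τ H (fun h j => aeval (x h) (g j)) (iterVec_aeval hx hδ hg)
    (fun h Q hQ => by rw [hc]; exact hI h _ hQ.2)
  refine (Set.encard_le_encard ?_).trans h2
  rintro P ⟨h, h0, h3, rfl⟩
  refine ⟨h, h0, ?_, rfl⟩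
  rw [hc]
  exact h3

end Pool.Agent.Q1.FB
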