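import Pool.Agent.Q1.FB.Img
import Pool.Agent.Q1.BD.SpecA
import Pool.Agent.Q1.BD.Curve

/-!
Images of families of points of bounded degree, and of algebroid curves, under rational maps.
-/

set_option autoImplicit false

namespace Pool.Agent.Q1.FB

open Polynomial Pool.Agent.Y377.ST Pool.Agent.Q1.BD Pool.Agent.Q1.SL

section univ

variable {k : Type} [Field k] {N m d : ℕ}

/-- the coefficients of the image of the universal point -/
noncomputable def imP (d : ℕ) (g : Fin (m + 1) → MvPolynomial (Fin (N + 1)) k) :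
    Jx m d → MvPolynomial (Jx N d) k := fun q =>
  match q with
  | (none, i) => MvPolynomial.X (none, i)
  | (some j, i) => ((MvPolynomial.aeval (NumP fun q : Jx N d => (MvPolynomial.X q :
      MvPolynomial (Jx N d) k)) (g j)) %ₘ
        Pol fun q : Jx N d => (MvPolynomial.X q : MvPolynomial (Jx N d) k)).coeff i

theorem imP_pol {L : Type} [CommRing L] [Algebra k L]
    (g : Fin (m + 1) → MvPolynomial (Fin (N + 1)) k) (x : Jx N d → L) :
    Pol (fun q => MvPolynomial.aeval x (imP d g q)) = Pol x := by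
  unfold Pol
  congr 1
  refine Finset.sum_congr rfl fun i _ => ?_
  congr 2
  change MvPolynomial.aeval x (MvPolynomial.X (none, i)) = _
  rw [MvPolynomial.aeval_X]

theorem imP_num {L : Type} [CommRing L] [Algebra k L]
    (g : Fin (m + 1) → MvPolynomial (Fin (N + 1)) k) (x : Jx N d → L) {α : L}
    (hα : (Pol x).eval α = 0) :
    Num (fun q => MvPolynomial.aeval x (imP d g q)) α =
      fun j => MvPolynomial.aeval (Num x α) (g j) := by
  funext j
  let A := MvPolynomial (Jx N d) k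
  let v : Jx N d → A := fun q => MvPolynomial.X q
  let ev : A →ₐ[k] L := MvPolynomial.aeval x
  let f : A[X] := MvPolynomial.aeval (NumP v) (g j)
  have hv : (fun q => (ev : A →+* L) (v q)) = x := by
    funext q
    exact MvPolynomial.aeval_X _ _
  have hPm : (Pol v).Monic := pol_monic v
  have hr : (f %ₘ Pol v).natDegree < d ∨ f %ₘ Pol v = 0 := by
    by_cases h0 : f %ₘ Pol v = 0
    · exact Or.inr h0
    · left
      have h1 := degree_modByMonic_lt f hPm
      rw [degree_eq_natDegree h0, degree_eq_natDegree hPm.ne_zero, pol_degree] at h1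
      exact_mod_cast h1
  have h1 : Num (fun q => MvPolynomial.aeval x (imP d g q)) α j =
      ((f %ₘ Pol v).map (ev : A →+* L)).eval α := by
    have h2 : f %ₘ Pol v = ∑ i : Fin d, C ((f %ₘ Pol v).coeff i) * X ^ (i : ℕ) := by
      rw [Fin.sum_univ_eq_sum_range (fun i => C ((f %ₘ Pol v).coeff i) * X ^ i) d]
      rcases hr with h | h
      · exact as_sum_range_C_mul_X_pow' _ h
      · rw [h]
        simp
    rw [h2]
    rw [Polynomial.map_sum, eval_finsetSum]
    change ∑ i : Fin d, ev (imP d g (some j, i)) * α ^ (i : ℕ) = _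
    refine Finset.sum_congr rfl fun i _ => ?_
    rw [Polynomial.map_mul, Polynomial.map_C, Polynomial.map_pow, Polynomial.map_X, eval_mul,
      eval_C, eval_pow, eval_X]
    rfl
  rw [h1, Polynomial.map_modByMonic _ hPm, pol_map, hv]
  have h3 := Polynomial.modByMonic_add_div (f.map (ev : A →+* L)) (Pol x)
  have h4 := congrArg (fun p => p.eval α) h3
  simp only [eval_add, eval_mul, hα, zero_mul, add_zero] at h4
  rw [h4]
  have h5 : f.map (ev : A →+* L) = MvPolynomial.aeval (NumP x) (g j) := by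
    have h6 := fp_map (k := k) ev v (g j)
    have h7 : (fun q => ev (v q)) = x := hv
    rw [h7] at h6
    exact h6
  rw [h5]
  have h8 := fp_aeval (k := k) (A := L) (B := L) x α (g j)
  rw [coe_aeval_eq_eval] at h8
  exact h8

end univ

/-- families composed with polynomials -/
theorem iterFam_comp {L H ι κ : Type} [CommRing L] [Group H] [Fintype ι] {s r e δ : ℕ}
    {x : H → ι → L} (hx : IterFam s r e x) (hδ : 0 < δ) (P : κ → MvPolynomial ι L)
    (hP : ∀ q, (P q).totalDegree ≤ δ) :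
    IterFam s r (e * δ) fun h q => MvPolynomial.eval (x h) (P q) := by
  classical
  obtain ⟨X, Y, hX, hc⟩ := hx
  choose c hc using hc
  have hle : e ≤ e * δ := Nat.le_mul_of_pos_right e hδ
  refine ⟨X, Y, ⟨hX.inv, fun l g' i j => ?_⟩, fun q => ?_⟩
  · obtain ⟨c1, h1⟩ := hX.coc l g' i j
    obtain ⟨c2, h2⟩ := pev_mono hle c1
    exact ⟨c2, fun h => (h1 h).trans (h2 _)⟩
  · let φ := Fintype.equivFin ι
    obtain ⟨c', h1⟩ := pev_comp (fun j => c (φ.symm j)) (MvPolynomial.rename φ (P q))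
      ((MvPolynomial.totalDegree_rename_le _ _).trans (hP q))
    refine ⟨c', fun h => ?_⟩
    have h3 : x h = (fun j => pev (c (φ.symm j)) (entries X Y h)) ∘ φ := by
      funext i
      rw [Function.comp_apply, φ.symm_apply_apply]
      exact hc i h
    change MvPolynomial.eval (x h) (P q) = _
    rw [← h1, MvPolynomial.eval_rename, ← h3]

theorem dFam_comp {Ω : Set ℂ} {ι κ : Type} [Fintype ι] {s r e δ : ℕ}
    {x : ℂ → ι → ℂ} (hx : DFam Ω s r e x) (hδ : 0 < δ) (P : κ → MvPolynomial ι ℂ)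
    (hP : ∀ q, (P q).totalDegree ≤ δ) :
    DFam Ω s r (e * δ) fun z q => MvPolynomial.eval (x z) (P q) := by
  classical
  obtain ⟨X, Y, hX, hc⟩ := hx
  choose c hc using hc
  have hle : e ≤ e * δ := Nat.le_mul_of_pos_right e hδ
  refine ⟨X, Y, ⟨hX.an, hX.an', hX.inv, fun l i j => ?_⟩, fun q => ?_⟩
  · obtain ⟨c1, h1⟩ := hX.coc l i j
    obtain ⟨c2, h2⟩ := pev_mono hle c1
    exact ⟨c2, fun z hz => (h1 z hz).trans (h2 _)⟩
  · let φ := Fintype.equivFin ι
    obtain ⟨c', h1⟩ := pev_comp (fun j => c (φ.symm j)) (MvPolynomial.rename φ (P q))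
      ((MvPolynomial.totalDegree_rename_le _ _).trans (hP q))
    refine ⟨c', fun z hz => ?_⟩
    have h3 : x z = (fun j => pev (c (φ.symm j)) (entries X Y z)) ∘ φ := by
      funext i
      rw [Function.comp_apply, φ.symm_apply_apply]
      exact hc i z hz
    change MvPolynomial.eval (x z) (P q) = _
    rw [← h1, MvPolynomial.eval_rename, ← h3]

section main

variable {k : Type} [Field k] {N m : ℕ}

/-- The images under `g` of the points `Num (x h) α` outside of `G = 0`, `α` a root of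
`Pol (x h)`. -/
def imgOffD {L H : Type} [Field L] [Algebra k L] {d : ℕ}
    (g : Fin (m + 1) → MvPolynomial (Fin (N + 1)) k) (G : MvPolynomial (Fin (N + 1)) k)
    (x : H → Jx N d → L) :
    Set (Projectivization (AlgebraicClosure L) (Fin (m + 1) → AlgebraicClosure L)) :=
  {P | ∃ (h : H) (α : AlgebraicClosure L)
    (h0 : (fun j => MvPolynomial.aeval (Num (bar (x h)) α) (g j)) ≠ 0),
    (Pol (bar (x h))).eval α = 0 ∧ MvPolynomial.aeval (Num (bar (x h)) α) G ≠ 0 ∧
    P = Projectivization.mk (AlgebraicClosure L)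
      (fun j => MvPolynomial.aeval (Num (bar (x h)) α) (g j)) h0}

theorem exists_deg_imP (d : ℕ) (g : Fin (m + 1) → MvPolynomial (Fin (N + 1)) k) :
    ∃ D : ℕ, 0 < D ∧ ∀ q, (imP d g q).totalDegree ≤ D := by
  refine ⟨(Finset.univ.sup fun q => (imP d g q).totalDegree) + 1, Nat.succ_pos _, fun q => ?_⟩
  exact (Finset.le_sup (f := fun q => (imP d g q).totalDegree) (Finset.mem_univ q)).trans
    (Nat.le_succ _)

/-- **Images of families of points of bounded degree.** -/
theorem img_bd [Countable k]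
    (FF : Set (MvPolynomial (Fin (N + 1)) k)) (hhom : ∀ F ∈ FF, ∃ e, F.IsHomogeneous e)
    (hprime : (Ideal.span FF).IsPrime) (g : Fin (m + 1) → MvPolynomial (Fin (N + 1)) k) {δ : ℕ}
    (hδ : 0 < δ) (hg : ∀ j, (g j).IsHomogeneous δ) (d : ℕ)
    (hnu : ¬ Covered (imgI (Ideal.span FF) g) d) (s r e : ℕ) :
    ∃ G : MvPolynomial (Fin (N + 1)) k, (∃ d, G.IsHomogeneous d) ∧ G ∉ Ideal.span FF ∧
      ∃ B : ℕ, ∀ (L : Type) [Field L] [Algebra k L] (_ : L →+* ℂ) (H : Type) [Group H]
        (x : H → Jx N d → L), IterFam s r e x →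
        (∀ h α, (Pol (bar (x h))).eval α = 0 → ∀ F ∈ FF,
          MvPolynomial.aeval (Num (bar (x h)) α) F = 0) →
        (imgOffD g G x).encard ≤ (B : ℕ∞) := by
  have hsp := span_img (I := Ideal.span FF) ⟨FF, hhom, rfl⟩ hδ hg
  have hp : (Ideal.span {Q : MvPolynomial (Fin (m + 1)) k | (∃ e, Q.IsHomogeneous e) ∧
      Q ∈ imgI (Ideal.span FF) g}).IsPrime := by
    rw [hsp]
    exact Ideal.IsPrime.comap _
  obtain ⟨D, hD0, hD⟩ := exists_deg_imP d g
  obtain ⟨G, ⟨d', hd'⟩, hG2, B, hB⟩ := strong_bd _ (fun Q hQ => hQ.1) hp d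
    (by rw [hsp]; exact hnu) s r (e * D)
  rw [hsp] at hG2
  refine ⟨MvPolynomial.aeval g G, ⟨d' * δ, aeval_hom hg hd'⟩, hG2, B, ?_⟩
  intro L _ _ τ H _ x hx hX
  let x' : H → Jx m d → L := fun h q => MvPolynomial.aeval (x h) (imP d g q)
  have hx' : IterFam s r (e * D) x' := by
    have h1 := iterFam_comp hx hD0 (fun q => MvPolynomial.map (algebraMap k L) (imP d g q))
      fun q => (Finset.sup_mono (MvPolynomial.support_map_subset _ _)).trans (hD q)
    have h2 : (fun h q => MvPolynomial.eval (x h)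
        (MvPolynomial.map (algebraMap k L) (imP d g q))) = x' := by
      funext h q
      rw [MvPolynomial.eval_map]
      rfl
    rwa [h2] at h1
  have hbar : ∀ h, bar (x' h) = fun q => MvPolynomial.aeval (bar (x h)) (imP d g q) := by
    intro h
    funext q
    change algebraMap L (AlgebraicClosure L) (MvPolynomial.aeval (x h) (imP d g q)) = _
    exact (MvPolynomial.aeval_algebraMap_apply _ _ _).symm
  have hpol : ∀ h, Pol (bar (x' h)) = Pol (bar (x h)) := by
    intro h
    rw [hbar]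
    exact imP_pol g (bar (x h))
  have hnum : ∀ h α, (Pol (bar (x h))).eval α = 0 →
      Num (bar (x' h)) α = fun j => MvPolynomial.aeval (Num (bar (x h)) α) (g j) := by
    intro h α hα
    rw [hbar]
    exact imP_num g (bar (x h)) hα
  have hI : ∀ h α, (Pol (bar (x h))).eval α = 0 → ∀ F ∈ Ideal.span FF,
      MvPolynomial.aeval (Num (bar (x h)) α) F = 0 := by
    intro h α hα
    have h1 : Ideal.span FF ≤ RingHom.ker (MvPolynomial.aeval (Num (bar (x h)) α) :
        MvPolynomial (Fin (N + 1)) k →ₐ[k] AlgebraicClosure L) := by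
      rw [Ideal.span_le]
      intro F hF
      exact hX h α hα F hF
    intro F hF
    exact h1 hF
  have hc : ∀ h α (Q : MvPolynomial (Fin (m + 1)) k),
      MvPolynomial.aeval (fun j => MvPolynomial.aeval (Num (bar (x h)) α) (g j)) Q =
        MvPolynomial.aeval (Num (bar (x h)) α) (MvPolynomial.aeval g Q) := by
    intro h α Q
    exact (MvPolynomial.comp_aeval_apply (f := g)
      (MvPolynomial.aeval (Num (bar (x h)) α)) Q).symm
  have h2 := hB L τ H x' hx' (fun h α hα Q hQ => by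
    rw [hpol] at hα
    rw [hnum h α hα, hc]
    exact hI h α hα _ hQ.2)
  refine (Set.encard_le_encard ?_).trans h2
  rintro P ⟨h, α, h0, hα, h3, rfl⟩
  have e1 := hnum h α hα
  refine ⟨h, α, by rw [e1]; exact h0, by rw [hpol]; exact hα, by rw [e1, hc]; exact h3, ?_⟩
  congr 1
  exact e1.symm

/-- **Images of algebroid curves.** -/
theorem img_bd_curves [Countable k]
    (FF : Set (MvPolynomial (Fin (N + 1)) k)) (hhom : ∀ F ∈ FF, ∃ e, F.IsHomogeneous e)
    (hprime : (Ideal.span FF).IsPrime) (g : Fin (m + 1) → MvPolynomial (Fin (N + 1)) k) {δ : ℕ}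
    (hδ : 0 < δ) (hg : ∀ j, (g j).IsHomogeneous δ) (d : ℕ)
    (hnu : ¬ Covered (imgI (Ideal.span FF) g) d) (s r e : ℕ) :
    ∃ G : MvPolynomial (Fin (N + 1)) k, (∃ d, G.IsHomogeneous d) ∧ G ∉ Ideal.span FF ∧
      ∀ (σ : k →+* ℂ) (Ω : Set ℂ), IsOpen Ω → IsPreconnected Ω →
        ∀ (x : ℂ → Jx N d → ℂ) (α : ℂ → ℂ), DFam Ω s r e x → AnalyticOnNhd ℂ α Ω →
        (∀ z ∈ Ω, (Pol (x z)).eval (α z) = 0) →
        (∀ z ∈ Ω, ∀ F ∈ FF, MvPolynomial.eval₂ σ (Num (x z) (α z)) F = 0) →
        (∃ z ∈ Ω, ∃ w ∈ Ω, ∃ u v, MvPolynomial.eval₂ σ (Num (x z) (α z)) (g u) *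
            MvPolynomial.eval₂ σ (Num (x w) (α w)) (g v) ≠
          MvPolynomial.eval₂ σ (Num (x z) (α z)) (g v) *
            MvPolynomial.eval₂ σ (Num (x w) (α w)) (g u)) →
          ∀ z ∈ Ω, MvPolynomial.eval₂ σ (Num (x z) (α z)) G = 0 := by
  have hsp := span_img (I := Ideal.span FF) ⟨FF, hhom, rfl⟩ hδ hg
  have hp : (Ideal.span {Q : MvPolynomial (Fin (m + 1)) k | (∃ e, Q.IsHomogeneous e) ∧
      Q ∈ imgI (Ideal.span FF) g}).IsPrime := by
    rw [hsp]
    exact Ideal.IsPrime.comap _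
  obtain ⟨D, hD0, hD⟩ := exists_deg_imP d g
  obtain ⟨G, ⟨d', hd'⟩, hG2, hG3⟩ := strong_bd_curves _ (fun Q hQ => hQ.1) hp d
    (by rw [hsp]; exact hnu) s r (e * D)
  rw [hsp] at hG2
  refine ⟨MvPolynomial.aeval g G, ⟨d' * δ, aeval_hom hg hd'⟩, hG2, ?_⟩
  intro σ Ω hΩ hΩc x α hx hα hroot hX hnc
  let iA : Algebra k ℂ := σ.toAlgebra
  let x' : ℂ → Jx m d → ℂ := fun z q => MvPolynomial.aeval (x z) (imP d g q)
  have hx' : DFam Ω s r (e * D) x' := by
    have h1 := dFam_comp hx hD0 (fun q => MvPolynomial.map σ (imP d g q))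
      fun q => (Finset.sup_mono (MvPolynomial.support_map_subset _ _)).trans (hD q)
    have h2 : (fun z q => MvPolynomial.eval (x z)
        (MvPolynomial.map σ (imP d g q))) = x' := by
      funext z q
      rw [MvPolynomial.eval_map]
      rfl
    rwa [h2] at h1
  have hpol : ∀ z, Pol (x' z) = Pol (x z) := fun z => imP_pol g (x z)
  have hnum : ∀ z ∈ Ω, Num (x' z) (α z) =
      fun j => MvPolynomial.eval₂ σ (Num (x z) (α z)) (g j) := fun z hz =>
    imP_num g (x z) (hroot z hz)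
  have hI : ∀ z ∈ Ω, ∀ F ∈ Ideal.span FF,
      MvPolynomial.aeval (Num (x z) (α z)) F = 0 := by
    intro z hz
    have h1 : Ideal.span FF ≤ RingHom.ker (MvPolynomial.aeval (Num (x z) (α z)) :
        MvPolynomial (Fin (N + 1)) k →ₐ[k] ℂ) := by
      rw [Ideal.span_le]
      intro F hF
      exact hX z hz F hF
    intro F hF
    exact h1 hF
  have hc : ∀ z (Q : MvPolynomial (Fin (m + 1)) k),
      MvPolynomial.eval₂ σ (fun j => MvPolynomial.eval₂ σ (Num (x z) (α z)) (g j)) Q =
        MvPolynomial.eval₂ σ (Num (x z) (α z)) (MvPolynomial.aeval g Q) := by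
    intro z Q
    exact (MvPolynomial.comp_aeval_apply (f := g)
      (MvPolynomial.aeval (Num (x z) (α z)) : MvPolynomial (Fin (N + 1)) k →ₐ[k] ℂ) Q).symm
  intro z hz
  rw [← hc, ← hnum z hz]
  refine hG3 σ Ω hΩ hΩc x' α hx' hα (fun z hz => by rw [hpol]; exact hroot z hz)
    (fun z hz Q hQ => ?_) ?_ z hz
  · rw [hnum z hz, hc]
    exact hI z hz _ hQ.2
  · obtain ⟨z, hz, w, hw, u, v, h1⟩ := hnc
    refine ⟨z, hz, w, hw, u, v, ?_⟩
    rw [hnum z hz, hnum w hw]
    exact h1

end main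

end Pool.Agent.Q1.FB
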