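import Pool.Agent.Q1.FB.ImgBD
import Pool.Agent.Q1.BA.DiffA

/-!
Images of families of integral points of bounded degree, and of algebroid curves in affine varieties,
under polynomial maps.
-/

set_option autoImplicit false

namespace Pool.Agent.Q1.FB

open Polynomial Pool.Agent.Y377.ST Pool.Agent.Q1.BD Pool.Agent.Q1.SL Pool.Agent.Q1.BA

variable {k : Type} [Field k] {N m : ℕ}

/-- the ideal of the closure of the image under the polynomial map `g` -/
noncomputable def imgA (I : Ideal (MvPolynomial (Fin (N + 1)) k))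
    (g : Fin (m + 1) → MvPolynomial (Fin (N + 1)) k) : Ideal (MvPolynomial (Fin (m + 1)) k) :=
  I.comap (MvPolynomial.aeval g : MvPolynomial (Fin (m + 1)) k →ₐ[k] MvPolynomial (Fin (N + 1)) k)

/-- The images under `g` of the points `Num (x h) α` outside of `G = 0`, `α` a root of
`Pol (x h)`. -/
def imgOffA {L H : Type} [Field L] [Algebra k L] {d : ℕ}
    (g : Fin (m + 1) → MvPolynomial (Fin (N + 1)) k) (G : MvPolynomial (Fin (N + 1)) k)
    (x : H → Jx N d → L) : Set (Fin (m + 1) → AlgebraicClosure L) :=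
  {P | ∃ (h : H) (α : AlgebraicClosure L), (Pol (bar (x h))).eval α = 0 ∧
    MvPolynomial.aeval (Num (bar (x h)) α) G ≠ 0 ∧
    P = fun j => MvPolynomial.aeval (Num (bar (x h)) α) (g j)}

/-- **Images of families of integral points of bounded degree.** -/
theorem img_bdA [Countable k] (I : Ideal (MvPolynomial (Fin (N + 1)) k)) (hprime : I.IsPrime)
    (g : Fin (m + 1) → MvPolynomial (Fin (N + 1)) k) (d : ℕ) (hnu : ¬ CoveredA (imgA I g) d)
    (s r e : ℕ) :
    ∃ G : MvPolynomial (Fin (N + 1)) k, G ∉ I ∧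
      ∃ B : ℕ, ∀ (L : Type) [Field L] [Algebra k L] (_ : L →+* ℂ) (H : Type) [Group H]
        (x : H → Jx N d → L), IterFam s r e x →
        (∀ h α, (Pol (bar (x h))).eval α = 0 → ∀ F ∈ I,
          MvPolynomial.aeval (Num (bar (x h)) α) F = 0) →
        (imgOffA g G x).encard ≤ (B : ℕ∞) := by
  have hp : (imgA I g).IsPrime := Ideal.IsPrime.comap _
  obtain ⟨D, hD0, hD⟩ := exists_deg_imP d g
  obtain ⟨G, hG2, B, hB⟩ := strong_bdA (imgA I g) hp d hnu s r (e * D)
  refine ⟨MvPolynomial.aeval g G, hG2, B, ?_⟩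
  intro L _ _ τ H _ x hx hX
  let x' : H → Jx m d → L := fun h q => MvPolynomial.aeval (x h) (imP d g q)
  have hx' : IterFam s r (e * D) x' := by
    have h1 := iterFam_comp hx hD0 (fun q => MvPolynomial.map (algebraMap k L) (imP d g q))
      fun q => (Finset.sup_mono (MvPolynomial.support_map_subset _ _)).trans (hD q)
    have h2 : (fun h q => MvPolynomial.eval (x h)
        (MvPolynomial.map (algebraMap k L) (imP d g q))) = x' := by
      funext h q
      rw [MvPolynomial.eval_map]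
      rfl
    rwa [h2] at h1
  have hbar : ∀ h, bar (x' h) = fun q => MvPolynomial.aeval (bar (x h)) (imP d g q) := by
    intro h
    funext q
    change algebraMap L (AlgebraicClosure L) (MvPolynomial.aeval (x h) (imP d g q)) = _
    exact (MvPolynomial.aeval_algebraMap_apply _ _ _).symm
  have hpol : ∀ h, Pol (bar (x' h)) = Pol (bar (x h)) := by
    intro h
    rw [hbar]
    exact imP_pol g (bar (x h))
  have hnum : ∀ h α, (Pol (bar (x h))).eval α = 0 →
      Num (bar (x' h)) α = fun j => MvPolynomial.aeval (Num (bar (x h)) α) (g j) := by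
    intro h α hα
    rw [hbar]
    exact imP_num g (bar (x h)) hα
  have hc : ∀ h α (Q : MvPolynomial (Fin (m + 1)) k),
      MvPolynomial.aeval (fun j => MvPolynomial.aeval (Num (bar (x h)) α) (g j)) Q =
        MvPolynomial.aeval (Num (bar (x h)) α) (MvPolynomial.aeval g Q) := by
    intro h α Q
    exact (MvPolynomial.comp_aeval_apply (f := g)
      (MvPolynomial.aeval (Num (bar (x h)) α)) Q).symm
  have h2 := hB L τ H x' hx' (fun h α hα Q hQ => by
    rw [hpol] at hα
    rw [hnum h α hα, hc]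
    exact hX h α hα _ hQ)
  refine (Set.encard_le_encard ?_).trans h2
  rintro P ⟨h, α, hα, h3, rfl⟩
  have e1 := hnum h α hα
  exact ⟨h, α, by rw [hpol]; exact hα, by rw [e1, hc]; exact h3, e1.symm⟩

/-- **Images of algebroid curves in affine varieties.** -/
theorem img_bd_curvesA [Countable k] (I : Ideal (MvPolynomial (Fin (N + 1)) k))
    (hprime : I.IsPrime) (g : Fin (m + 1) → MvPolynomial (Fin (N + 1)) k) (d : ℕ)
    (hnu : ¬ CoveredA (imgA I g) d) (s r e : ℕ) :
    ∃ G : MvPolynomial (Fin (N + 1)) k, G ∉ I ∧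
      ∀ (σ : k →+* ℂ) (Ω : Set ℂ), IsOpen Ω → IsPreconnected Ω →
        ∀ (x : ℂ → Jx N d → ℂ) (α : ℂ → ℂ), DFam Ω s r e x → AnalyticOnNhd ℂ α Ω →
        (∀ z ∈ Ω, (Pol (x z)).eval (α z) = 0) →
        (∀ z ∈ Ω, ∀ F ∈ I, MvPolynomial.eval₂ σ (Num (x z) (α z)) F = 0) →
        (∃ z ∈ Ω, ∃ w ∈ Ω, ∃ u, MvPolynomial.eval₂ σ (Num (x z) (α z)) (g u) ≠
          MvPolynomial.eval₂ σ (Num (x w) (α w)) (g u)) →
          ∀ z ∈ Ω, MvPolynomial.eval₂ σ (Num (x z) (α z)) G = 0 := by
  have hp : (imgA I g).IsPrime := Ideal.IsPrime.comap _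
  obtain ⟨D, hD0, hD⟩ := exists_deg_imP d g
  obtain ⟨G, hG2, hG3⟩ := strong_bd_curvesA (imgA I g) hp d hnu s r (e * D)
  refine ⟨MvPolynomial.aeval g G, hG2, ?_⟩
  intro σ Ω hΩ hΩc x α hx hα hroot hX hnc
  let iA : Algebra k ℂ := σ.toAlgebra
  let x' : ℂ → Jx m d → ℂ := fun z q => MvPolynomial.aeval (x z) (imP d g q)
  have hx' : DFam Ω s r (e * D) x' := by
    have h1 := dFam_comp hx hD0 (fun q => MvPolynomial.map σ (imP d g q))
      fun q => (Finset.sup_mono (MvPolynomial.support_map_subset _ _)).trans (hD q)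
    have h2 : (fun z q => MvPolynomial.eval (x z)
        (MvPolynomial.map σ (imP d g q))) = x' := by
      funext z q
      rw [MvPolynomial.eval_map]
      rfl
    rwa [h2] at h1
  have hpol : ∀ z, Pol (x' z) = Pol (x z) := fun z => imP_pol g (x z)
  have hnum : ∀ z ∈ Ω, Num (x' z) (α z) =
      fun j => MvPolynomial.eval₂ σ (Num (x z) (α z)) (g j) := fun z hz =>
    imP_num g (x z) (hroot z hz)
  have hc : ∀ z (Q : MvPolynomial (Fin (m + 1)) k),
      MvPolynomial.eval₂ σ (fun j => MvPolynomial.eval₂ σ (Num (x z) (α z)) (g j)) Q =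
        MvPolynomial.eval₂ σ (Num (x z) (α z)) (MvPolynomial.aeval g Q) := by
    intro z Q
    exact (MvPolynomial.comp_aeval_apply (f := g)
      (MvPolynomial.aeval (Num (x z) (α z)) : MvPolynomial (Fin (N + 1)) k →ₐ[k] ℂ) Q).symm
  intro z hz
  rw [← hc, ← hnum z hz]
  refine hG3 σ Ω hΩ hΩc x' α hx' hα (fun z hz => by rw [hpol]; exact hroot z hz)
    (fun z hz Q hQ => ?_) ?_ z hz
  · rw [hnum z hz, hc]
    exact hX z hz _ hQ
  · obtain ⟨z, hz, w, hw, u, h1⟩ := hnc
    refine ⟨z, hz, w, hw, fun h2 => h1 ?_⟩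
    rw [hnum z hz, hnum w hw] at h2
    exact congrFun h2 u

end Pool.Agent.Q1.FB
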